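import Mathlib
import Pool.Agent.TH899.UG.GD4

/-!
# Goldbach numbers of positive density in all short intervals, or almost all even numbers are prime differences

For every `ε > 0` there are `K` and `C` such that for every `η > 0`, all large `N` and all windows `(u, u + L]`
with `C (u + L) ≤ N` at least one of the following holds.

* All but `8 K L ^ (1 - 1 / K)` of the `k` in `(u, u + L]` are such that there are `N ^ (1 - η)` primes
  `p ≤ 3 N` with `p + 2 k` prime.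
* In EVERY interval `[b, b + H)` with `C (u + L) ≤ H ≤ N / C` and `8 N / 15 ≤ b ≤ 7 N / 6` at least
  `(1 / 12 - ε) H` integers (one sixth of the even ones) are sums `p + q` of two primes in at least
  `N ^ (1 - η)` ways, and in every such interval with `C (u + L) ≤ b ≤ 7 N / 6` at least `(1 / 12 - ε) H`
  integers are differences `q - p` of two primes in at least `N ^ (1 - η)` ways.
-/

set_option autoImplicit false

namespace Pool.Agent.Results.MP_61161c_nt.DensityOrDifferences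

open Filter

theorem result (ε : ℝ) (hε : 0 < ε) : ∃ K C : ℕ, 1 ≤ K ∧ ∀ η : ℝ, 0 < η → ∀ᶠ N : ℕ in atTop,
    ∀ u L : ℕ, 1 ≤ L → C * (u + L) ≤ N →
    (({k : ℕ | u < k ∧ k ≤ u + L ∧ ¬ ((N : ℝ) ^ (1 - η) ≤
      ({p : ℕ | p ≤ 3 * N ∧ p.Prime ∧ (p + 2 * k).Prime}.ncard : ℝ))}.ncard : ℝ) ≤
        8 * K * (L : ℝ) ^ (1 - 1 / (K : ℝ))) ∨
    (∀ a : ℤ, (a = 1 ∨ a = -1) → ∀ b H : ℕ, C * (u + L) ≤ b → 6 * b ≤ 7 * N →
      (∀ y : ℝ, (N : ℝ) / 16 ≤ y → y ≤ N / 2 → (N : ℝ) / 30 ≤ a * y + b) →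
      C * (u + L) ≤ H → C * H ≤ N →
      (1 / 12 - ε) * H ≤ ({c : ℕ | b ≤ c ∧ c < b + H ∧ (N : ℝ) ^ (1 - η) ≤
        ({p : ℕ | p ≤ 3 * N ∧ p.Prime ∧ (a * p + c).toNat.Prime}.ncard : ℝ)}.ncard : ℝ)) := by
  classical
  obtain ⟨K, C, hK, H⟩ := Pool.Agent.TH899.UG.GD.gd ε hε
  refine ⟨K, C, hK, fun η hη => ?_⟩
  filter_upwards [H η hη] with N hN
  intro u L hL hC
  have hdif : ∀ h : ℕ, Pool.Agent.TH899.UG.GD.difc N h ≤
      {p : ℕ | p ≤ 3 * N ∧ p.Prime ∧ (p + h).Prime}.ncard := by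
    intro h
    unfold Pool.Agent.TH899.UG.GD.difc
    rw [← Set.ncard_coe_finset]
    refine Set.ncard_le_ncard ?_ ((Set.finite_Iic (3 * N)).subset fun p hp => hp.1)
    intro p hp
    have h1 := Finset.mem_filter.1 (Finset.mem_coe.1 hp)
    exact ⟨(Finset.mem_Icc.1 h1.1).2, h1.2⟩
  have hgol : ∀ a c : ℤ, Pool.Agent.TH899.UG.GD.golc N a c ≤
      {p : ℕ | p ≤ 3 * N ∧ p.Prime ∧ (a * p + c).toNat.Prime}.ncard := by
    intro a c
    unfold Pool.Agent.TH899.UG.GD.golc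
    rw [← Set.ncard_coe_finset]
    refine Set.ncard_le_ncard ?_ ((Set.finite_Iic (3 * N)).subset fun p hp => hp.1)
    intro p hp
    have h1 := Finset.mem_filter.1 (Finset.mem_coe.1 hp)
    exact ⟨(Finset.mem_Icc.1 h1.1).2, h1.2⟩
  rcases hN u L hL hC with h | h
  · left
    refine le_trans ?_ h
    rw [← Set.ncard_coe_finset, Nat.cast_le]
    refine Set.ncard_le_ncard ?_ (Finset.finite_toSet _)
    rintro k ⟨h1, h2, h3⟩
    rw [not_le] at h3
    refine Finset.mem_coe.2 (Finset.mem_filter.2 ⟨Finset.mem_Ioc.2 ⟨h1, h2⟩, lt_of_le_of_lt ?_ h3⟩)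
    exact_mod_cast hdif (2 * k)
  · right
    intro a ha b B h1 h2 h3 h4 h5
    refine (h a ha b B h1 h2 h3 h4 h5).trans ?_
    rw [← Set.ncard_coe_finset, Nat.cast_le]
    refine Set.ncard_le_ncard ?_ ((Set.finite_Iio (b + B)).subset fun c hc => hc.2.1)
    intro c hc
    obtain ⟨k1, k2⟩ := Finset.mem_filter.1 (Finset.mem_coe.1 hc)
    rw [Finset.mem_Ico] at k1
    refine ⟨k1.1, k1.2, k2.trans ?_⟩
    exact_mod_cast hgol a c

end Pool.Agent.Results.MP_61161c_nt.DensityOrDifferences
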