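import Pool.Agent.TH872.An3

/-!
# Sums of two distinct and almost equal odd primes, for almost all rearrangements of digits

Definitions used:
* in `Pool.Agent.H560R3.GB`: `C₂`: the twin prime constant `∏_{p > 2} (1 - 1 / (p - 1) ^ 2)`; `sing m`: the
  singular series `2 C₂ ∏_{p ∣ m, p > 2} (p - 1) / (p - 2)`;
* in `Pool.Agent.TH872.An`: `Spread b k η d`: the integers `d i` (`i < k`) are digits in base `b`, and no
  digit is taken at more than `(1 - η) k` of the `k` places `i`; `V b d σ`: the integer with the permuted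
  digits, thus the integer with the digit `d (σ i)` at the place `i`, in base `b`.
-/

set_option autoImplicit false

namespace Pool.Agent.Results.MP_61161c_nt.DigitPermutations

open Finset Pool.Agent.H560R3.GB Pool.Agent.TH872.An

/-- The number of the `p` such that `p` and `p' = m - p` are odd primes, `p < p'` and `p' - p ≤ H`. -/
def N (m H : ℕ) : ℕ :=
  ((range m).filter (fun p => p.Prime ∧ p ≠ 2 ∧ (m - p).Prime ∧ m - p ≠ 2 ∧ p < m - p ∧ m - p ≤ p + H)).card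

/-- For every `H` with `m / log ^ A m ≤ H ≤ m` there are distinct odd primes `p < p'` with `p + p' = m` and
`p' - p ≤ H`, and the number of these pairs is `sing m * H / (2 log ^ 2 m)` up to a relative error of at
most `ε`. -/
def Holds (ε : ℝ) (A m : ℕ) : Prop :=
  ∀ H : ℕ, H ≤ m → (m : ℝ) / Real.log m ^ A ≤ H →
    (∃ p p' : ℕ, p.Prime ∧ p'.Prime ∧ p ≠ 2 ∧ p' ≠ 2 ∧ p < p' ∧ p + p' = m ∧ p' - p ≤ H) ∧
    |(N m H : ℝ) - sing m * H / (2 * Real.log m ^ 2)| ≤ ε * (sing m * H / (2 * Real.log m ^ 2))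

lemma N_eq (m H : ℕ) (hm : 2 ∣ m) (hm6 : 6 ≤ m) (hH : H ≤ m) :
    N m H = Pool.Agent.W93.PG.cnt m ((m - H + 1) / 2 - 1) (m / 2 - 1) := by
  unfold N Pool.Agent.W93.PG.cnt
  congr 1
  ext p
  rw [mem_filter, mem_filter, mem_range, mem_Ioc]
  constructor
  · rintro ⟨h1, h2, h3, h4, h5, h6, h7⟩
    have := h2.two_le
    exact ⟨by omega, h2, h4⟩
  · rintro ⟨⟨h1, h2⟩, h3, h4⟩
    refine ⟨by omega, h3, ?_, h4, by omega, by omega, by omega⟩
    rintro rfl
    have h5 : 2 ∣ m - 2 := by omega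
    have h6 := (Nat.prime_dvd_prime_iff_eq Nat.prime_two h4).1 h5
    omega

lemma holds_of (A : ℕ) (ε : ℝ) (hε : 0 < ε) : ∃ m₀ : ℕ, ∀ m : ℕ, m₀ ≤ m → 2 ∣ m →
    Pool.Agent.W93.PG.WinP (min ε (1 / 2) / 2) (A + 1) m → Holds ε A m := by
  obtain ⟨n1, h1⟩ := Pool.Agent.H373R2.T7.ev_L' 4
  obtain ⟨n2, h2⟩ := Pool.Agent.H373R2.T7.ev_log' (A + 1) 1
  obtain ⟨ε', hε'⟩ : ∃ ε', ε' = min ε (1 / 2) := ⟨_, rfl⟩
  have he0 : 0 < ε' := by rw [hε']; exact lt_min hε (by norm_num)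
  have he1 : ε' ≤ ε := by rw [hε']; exact min_le_left _ _
  have he2 : ε' ≤ 1 / 2 := by rw [hε']; exact min_le_right _ _
  obtain ⟨n3, hn3⟩ := exists_nat_ge ((4 / ε') ^ 2)
  rw [← hε']
  refine ⟨n1 + n2 + n3 + 6, fun m hm hm2 hwin H hH hHm => ?_⟩
  have a1 := h1 m (by omega)
  have a2 := h2 m (by omega)
  have hm4 : (6 : ℝ) ≤ m := by exact_mod_cast (by omega : 6 ≤ m)
  have hm0 : (0 : ℝ) < m := by linarith
  rw [one_mul] at a2
  obtain ⟨M, hM⟩ : ∃ M, M = Real.log (m : ℝ) := ⟨_, rfl⟩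
  have hs := Pool.Agent.W93.GB.one_le_sing m
  obtain ⟨S, hS⟩ : ∃ S, S = sing m := ⟨_, rfl⟩
  unfold Pool.Agent.W93.PG.WinP at hwin
  rw [← hM] at a1 a2 hwin hHm ⊢
  rw [← hS] at hs hwin ⊢
  have hM1 : 1 ≤ M := by linarith
  have hM0 : 0 < M := by linarith
  have hmm : √(m : ℝ) * √(m : ℝ) = m := Real.mul_self_sqrt hm0.le
  have hsm0 : 0 < √(m : ℝ) := Real.sqrt_pos.2 hm0
  have hsmH : √(m : ℝ) ≤ m / M ^ (A + 1) := by
    rw [le_div_iff₀ (by positivity)]
    calc √(m : ℝ) * M ^ (A + 1) ≤ √(m : ℝ) * √(m : ℝ) := mul_le_mul_of_nonneg_left a2 hsm0.le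
      _ = m := hmm
  have h4e : 4 / ε' ≤ √(m : ℝ) := by
    apply Real.le_sqrt_of_sq_le
    refine hn3.trans ?_
    exact_mod_cast (by omega : n3 ≤ m)
  have h8 : 8 ≤ √(m : ℝ) := by
    refine le_trans ?_ h4e
    rw [le_div_iff₀ he0]
    linarith
  have hA1 : (m : ℝ) / M ^ A = m / M ^ (A + 1) * M := by rw [pow_succ]; field_simp
  have hbig : 4 * (m / M ^ (A + 1)) ≤ H := by
    refine le_trans ?_ hHm
    rw [hA1, mul_comm]
    exact mul_le_mul_of_nonneg_left a1 (by positivity)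
  obtain ⟨y₁, hy₁⟩ : ∃ y₁, y₁ = (m - H + 1) / 2 - 1 := ⟨_, rfl⟩
  obtain ⟨y₂, hy₂⟩ : ∃ y₂, y₂ = m / 2 - 1 := ⟨_, rfl⟩
  have hHr : (32 : ℝ) ≤ H := by linarith
  have hH32 : 32 ≤ H := by exact_mod_cast hHr
  have hN := N_eq m H hm2 (by omega) hH
  rw [← hy₁, ← hy₂] at hN
  have hy12 : y₁ < y₂ := by omega
  have hd1 : (y₂ : ℝ) - y₁ ≤ H / 2 := by
    have : 2 * y₂ ≤ 2 * y₁ + H := by omega
    have : (2 : ℝ) * y₂ ≤ 2 * y₁ + H := by exact_mod_cast this
    linarith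
  have hd2 : (H : ℝ) / 2 - 1 ≤ (y₂ : ℝ) - y₁ := by
    have : 2 * y₁ + H ≤ 2 * y₂ + 2 := by omega
    have : (2 : ℝ) * y₁ + H ≤ 2 * y₂ + 2 := by exact_mod_cast this
    linarith
  have hw := hwin y₁ y₂ hy12 (by omega) (by linarith)
  rw [← hN] at hw
  obtain ⟨Δ, hΔ⟩ : ∃ Δ, Δ = (y₂ : ℝ) - y₁ := ⟨_, rfl⟩
  rw [← hΔ] at hw hd1 hd2
  have hSM : 0 < S / M ^ 2 := by positivity
  have e1 : S * Δ / M ^ 2 = S / M ^ 2 * Δ := by ring
  have e2 : S * H / (2 * M ^ 2) = S / M ^ 2 * (H / 2) := by field_simp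
  rw [e1] at hw
  rw [e2]
  obtain ⟨T, hT⟩ : ∃ T, T = S / M ^ 2 := ⟨_, rfl⟩
  rw [← hT] at hSM hw ⊢
  have h1H : 1 ≤ ε' / 2 * (H / 2) := by
    have : 4 / ε' ≤ H := by linarith
    rw [div_le_iff₀ he0] at this
    linarith
  have hmain : |(N m H : ℝ) - T * (H / 2)| ≤ ε' * (T * (H / 2)) := by
    have f1 : |(N m H : ℝ) - T * (H / 2)| ≤ |(N m H : ℝ) - T * Δ| + |T * Δ - T * (H / 2)| := abs_sub_le _ _ _
    have f2 : |T * Δ - T * (H / 2)| ≤ T := by
      rw [← mul_sub, abs_mul, abs_of_pos hSM]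
      apply mul_le_of_le_one_right hSM.le
      rw [abs_le]
      constructor <;> linarith
    have f3 : T ≤ T * (ε' / 2 * (H / 2)) := le_mul_of_one_le_right hSM.le h1H
    have f4 : ε' / 2 * (T * Δ) ≤ ε' / 2 * (T * (H / 2)) := by
      apply mul_le_mul_of_nonneg_left _ (by linarith)
      exact mul_le_mul_of_nonneg_left hd1 hSM.le
    linarith
  have hTH : 0 < T * (H / 2) := by
    have : (0 : ℝ) < H := by linarith
    positivity
  refine ⟨?_, hmain.trans (mul_le_mul_of_nonneg_right he1 hTH.le)⟩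
  have h7 : (0 : ℝ) < N m H := by
    rw [abs_le] at hmain
    nlinarith [hmain.1]
  have h8 : 0 < N m H := by exact_mod_cast h7
  unfold N at h8
  rw [card_pos] at h8
  obtain ⟨p, hp⟩ := h8
  rw [mem_filter, mem_range] at hp
  obtain ⟨q0, q1, q2, q3, q4, q5, q6⟩ := hp
  exact ⟨p, m - p, q1, q3, q2, q4, q5, by omega, by omega⟩

/-- Let `b ≥ 2`, `B`, `A`, `U`, `κ ≠ 0`, `η > 0` and `ε > 0` be fixed, let `k` be large, let `d` be an
arbitrary sequence of `k` digits in base `b` none of which is taken at more than `(1 - η) k` places, and let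
`c` be an arbitrary integer with `|c| ≤ B b ^ k`.

Then for all the permutations `σ` of the `k` places, up to at most `k! / k ^ U` of them, the integer
`m = c + κ v`, where `v` has the permuted digits, has the following property: if `m` is positive and even,
then for every `H` with `m / log ^ A m ≤ H ≤ m` the integer `m` is a sum of two distinct odd primes
`p < p'` with `p' - p ≤ H`, and the number of these representations is as predicted, up to a relative error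
of at most `ε`. -/
theorem result (b B A U : ℕ) (hb : 2 ≤ b) (κ : ℤ) (hκ : κ ≠ 0) (η ε : ℝ) (hη : 0 < η) (hε : 0 < ε) :
    ∃ k₀ : ℕ, ∀ k : ℕ, k₀ ≤ k → ∀ d : Fin k → ℕ, Spread b k η d → ∀ c : ℤ, |c| ≤ B * (b : ℤ) ^ k →
      (Nat.card {σ : Equiv.Perm (Fin k) // 0 < c + κ * V b d σ ∧ Even (c + κ * V b d σ) ∧
        ¬ Holds ε A (c + κ * V b d σ).toNat} : ℝ) ≤ Nat.factorial k / (k : ℝ) ^ U := by
  classical
  obtain ⟨m₀, h0⟩ := holds_of A ε hε
  obtain ⟨k₀, h⟩ := an_windows b B U (A + 1) m₀ hb κ hκ η hη (min ε (1 / 2) / 2)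
    (div_pos (lt_min hε (by norm_num)) (by norm_num)) (Holds ε A) h0
  refine ⟨k₀, fun k hk d hd c hc => ?_⟩
  have h1 := h k hk d hd c hc (fun σ => 0 < c + κ * V b d σ ∧ Even (c + κ * V b d σ) ∧
    ¬ Holds ε A (c + κ * V b d σ).toNat) (fun σ hσ => hσ)
  rwa [Nat.card_eq_fintype_card, Fintype.card_subtype]

end Pool.Agent.Results.MP_61161c_nt.DigitPermutations
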