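import Pool.Agent.TH345.GBM.D

/-!
# Sums of two distinct odd primes, in progressions, for all the even numbers close to almost all members
of arbitrary thin families

Definition used from `Pool.Agent.H560R3.GB`: `sing n`: the singular series
`2 C₂ ∏_{p ∣ n, p > 2} (p - 1) / (p - 2)`, where `C₂ = ∏_{p > 2} (1 - 1 / (p - 1) ^ 2)` is the twin prime
constant.
-/

set_option autoImplicit false

namespace Pool.Agent.Results.MP_61161c_nt.DistinctThinFamilies

open Finset Pool.Agent.H560R3.GB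

/-- The number of ordered pairs `(p, q)` of distinct odd primes with `p + q = n` and `p ≡ r (mod k)`. -/
noncomputable def count (n k r : ℕ) : ℕ :=
  Nat.card {w : ℕ × ℕ // w.1.Prime ∧ w.2.Prime ∧ Odd w.1 ∧ Odd w.2 ∧ w.1 ≠ w.2 ∧ w.1 + w.2 = n ∧
    w.1 ≡ r [MOD k]}

/-- The number of classes `α` modulo `k` for which `α` and `n - α` are both prime to `k`. -/
noncomputable def classes (k n : ℕ) : ℕ :=
  Nat.card {α : ℕ // α < k ∧ Nat.Coprime α k ∧ IsCoprime ((n : ℤ) - α) (k : ℤ)}

/-- The predicted number. -/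
noncomputable def pred (n k : ℕ) : ℝ :=
  sing n * n / (classes k n * Real.log n ^ 2)

/-- For all moduli `1 ≤ k ≤ log ^ B N` and all classes `r` with `(r, k) = (n - r, k) = 1` the number of
representations of `n` as a sum of two distinct odd primes, the first of them `≡ r (mod k)`, agrees with the
predicted number up to a relative error of at most `ε`, and there is such a representation. -/
def Holds (ε : ℝ) (B N n : ℕ) : Prop :=
  ∀ k r : ℕ, 1 ≤ k → (k : ℝ) ≤ Real.log N ^ B → Nat.Coprime r k →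
    IsCoprime ((n : ℤ) - r) (k : ℤ) → |(count n k r : ℝ) - pred n k| ≤ ε * pred n k ∧ 0 < count n k r

/-- The additive energy of order `h` of a finite family of integers `v i`: the number of solutions of
`v (a 1) + ... + v (a h) = v (b 1) + ... + v (b h)`. -/
noncomputable def energy (h : ℕ) {ι : Type} [Fintype ι] (v : ι → ℤ) : ℕ :=
  Nat.card {q : (Fin h → ι) × (Fin h → ι) // ∑ j, v (q.1 j) = ∑ j, v (q.2 j)}

/-- The number of representations of `t` as `v (a 1) + ... + v (a h)`. -/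
noncomputable def reps (h : ℕ) {ι : Type} [Fintype ι] (v : ι → ℤ) (t : ℤ) : ℕ :=
  Nat.card {a : Fin h → ι // ∑ j, v (a j) = t}

open Classical in
/-- The number of the members `v i` of the family for which there is an even natural number
`n ≥ N / log ^ A N` with `|n - v i| ≤ log ^ A N` for which `Holds` fails. -/
noncomputable def exceptions (ε : ℝ) (A B N : ℕ) {ι : Type} [Fintype ι] (v : ι → ℤ) : ℕ :=
  (univ.filter (fun i => ∃ n : ℕ, Even n ∧ (N : ℝ) / Real.log N ^ A ≤ n ∧
    (|(n : ℤ) - v i| : ℤ) ≤ Real.log N ^ A ∧ ¬ Holds ε B N n)).card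

/-- the number of representations lies between the full number diminished by one and the full number -/
lemma count_cg (n k r : ℕ) (hn : Even n) (hn5 : 5 ≤ n) :
    count n k r ≤ Pool.Agent.TH935.DG.cg k r n 0 (n - 1) ∧
      Pool.Agent.TH935.DG.cg k r n 0 (n - 1) ≤ count n k r + 1 := by
  classical
  obtain ⟨F, hF⟩ : ∃ F : Finset ℕ, F = (Ioc 0 (n - 1)).filter (fun q : ℕ => q.Prime ∧ (n - q).Prime ∧ q ≡ r [MOD k]) :=
    ⟨_, rfl⟩
  have e : count n k r = (F.filter (fun q => 2 * q ≠ n)).card := by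
    unfold count
    have e : Nat.card {w : ℕ × ℕ // w.1.Prime ∧ w.2.Prime ∧ Odd w.1 ∧ Odd w.2 ∧ w.1 ≠ w.2 ∧ w.1 + w.2 = n ∧
        w.1 ≡ r [MOD k]} = Nat.card {q : ℕ // q ∈ F.filter (fun q => 2 * q ≠ n)} := by
      apply Nat.card_congr
      refine Equiv.ofBijective (fun w => ⟨w.1.1, ?_⟩) ⟨?_, ?_⟩
      · obtain ⟨⟨p, q⟩, hp, hq, ho1, ho2, hne, he, hr⟩ := w
        simp only at hp hq ho1 ho2 hne he hr ⊢
        rw [mem_filter, hF, mem_filter, mem_Ioc]
        have := hp.two_le
        have := hq.two_le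
        have e3 : n - p = q := by omega
        rw [e3]
        exact ⟨⟨⟨by omega, by omega⟩, hp, hq, hr⟩, by omega⟩
      · rintro ⟨⟨p, q⟩, hp, hq, ho1, ho2, hne, he, hr⟩ ⟨⟨p', q'⟩, hp', hq', ho1', ho2', hne', he', hr'⟩ hw
        simp only [Subtype.mk.injEq, Prod.mk.injEq] at hw he he' ⊢
        omega
      · rintro ⟨q, hq⟩
        rw [mem_filter, hF, mem_filter, mem_Ioc] at hq
        obtain ⟨⟨⟨h1, h2⟩, h3, h4, h5⟩, h6⟩ := hq
        obtain ⟨m, hm⟩ := hn
        have h3' := h3.two_le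
        have h4' := h4.two_le
        have ho1 : Odd q := by
          rcases h3.eq_two_or_odd' with h7 | h7
          · exfalso
            subst h7
            have h8 : Even (n - 2) := ⟨m - 1, by omega⟩
            rcases h4.eq_two_or_odd' with h9 | h9
            · omega
            · exact (Nat.not_even_iff_odd.2 h9) h8
          · exact h7
        have ho2 : Odd (n - q) := by
          rcases h4.eq_two_or_odd' with h9 | h9
          · exfalso
            obtain ⟨j, hj⟩ := ho1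
            omega
          · exact h9
        exact ⟨⟨⟨q, n - q⟩, h3, h4, ho1, ho2, by simp only; omega, by simp only; omega, h5⟩, rfl⟩
    rw [e, Nat.card_eq_fintype_card, Fintype.card_coe]
  have e2 : Pool.Agent.TH935.DG.cg k r n 0 (n - 1) = F.card := by rw [hF]; rfl
  rw [e, e2]
  constructor
  · exact card_le_card (filter_subset _ _)
  · have h1 : F ⊆ (F.filter (fun q => 2 * q ≠ n)) ∪ {n / 2} := by
      intro q hq
      rw [mem_union, mem_filter, mem_singleton]
      by_cases h2 : 2 * q = n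
      · right; omega
      · left; exact ⟨hq, h2⟩
    refine (card_le_card h1).trans ((card_union_le _ _).trans ?_)
    rw [card_singleton]

lemma holds_of (A B W : ℕ) (ε : ℝ) (hε : 0 < ε) : ∃ N₀ : ℕ, ∀ N : ℕ, N₀ ≤ N → ∀ n : ℕ, Even n →
    (N : ℝ) / Real.log N ^ A ≤ n → n ≤ W * N →
    Pool.Agent.TH935.DG.HG (min ε 1 / 4) (A + 1) B N n → Holds ε B N n := by
  obtain ⟨ε', hε'⟩ : ∃ ε', ε' = min ε 1 := ⟨_, rfl⟩
  have hε0 : 0 < ε' := by rw [hε']; exact lt_min hε one_pos
  have hε1 : ε' ≤ 1 := by rw [hε']; exact min_le_right _ _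
  have hεε : ε' ≤ ε := by rw [hε']; exact min_le_left _ _
  obtain ⟨N₁, h1⟩ := Pool.Agent.TH345.GBM.logs A W (ε' / 16) (by positivity)
  obtain ⟨N₂, h2⟩ := Pool.Agent.H373R2.T7.ev_L' (2 * 16 / ε' + 8)
  obtain ⟨N₃, h3⟩ := Pool.Agent.H373R2.T7.ev_log' (A + B + 4) 1
  refine ⟨N₁ + N₂ + N₃ + 1, fun N hN n hne hn1 hn2 hG => ?_⟩
  rw [← hε'] at hG
  have c1 := h1 N (by omega) n hn1 hn2
  have c2 := h2 N (by omega)
  have c3 := h3 N (by omega)
  obtain ⟨L, hLd⟩ : ∃ L, L = Real.log (N : ℝ) := ⟨_, rfl⟩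
  rw [← hLd] at c1 c2 c3 hn1
  rw [one_mul] at c3
  have hp : 0 < 2 * 16 / ε' := by positivity
  have hL8 : 8 ≤ L := by linarith
  have hL0 : 0 < L := by linarith
  have hL1 : 1 ≤ L := by linarith
  have hLε : 32 ≤ L * ε' := by
    have : 2 * 16 / ε' ≤ L := by linarith
    rw [div_le_iff₀ hε0] at this
    linarith
  have hNr : (1 : ℝ) ≤ N := by exact_mod_cast (by omega : 1 ≤ N)
  have hN0 : (0 : ℝ) < N := by linarith
  have hLA : 0 < L ^ A := by positivity
  have hLA1 : 1 ≤ L ^ A := one_le_pow₀ hL1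
  have hss : √(N : ℝ) * √(N : ℝ) = N := Real.mul_self_sqrt hN0.le
  -- `n` is large
  have hn3 : L ^ (B + 4) ≤ n := by
    refine le_trans ?_ hn1
    rw [le_div_iff₀ hLA, ← hss, ← pow_add]
    refine le_trans ?_ (mul_le_mul c3 c3 (by positivity) (by positivity))
    rw [← pow_add]
    exact pow_le_pow_right₀ hL1 (by omega)
  have hB1 : 1 ≤ L ^ B := one_le_pow₀ hL1
  have hn4 : L ^ 4 ≤ n := by
    refine le_trans ?_ hn3
    rw [pow_add]
    exact le_mul_of_one_le_left (by positivity) hB1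
  have hn5 : (64 : ℝ) ≤ n := by
    have h6 : (64 : ℝ) ≤ L ^ 2 := by nlinarith
    have h7 : L ^ 4 = L ^ 2 * L ^ 2 := by ring
    nlinarith
  have hn0 : (0 : ℝ) < n := by linarith
  have hnn : 64 ≤ n := by exact_mod_cast hn5
  intro k r hk hkL hr hrn
  have h4 := hG k r hk hkL hr hrn 0 (n - 1) (by omega) (by omega) (by
    rw [← hLd, pow_succ]
    push_cast [Nat.cast_sub (by omega : 1 ≤ n)]
    rw [div_le_iff₀ (by positivity)]
    rw [div_le_iff₀ hLA] at hn1
    have h9 : (n : ℝ) / 2 ≤ n - 1 - 0 := by linarith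
    have h10 : (N : ℝ) ≤ (n / 2) * (L ^ A * L) := by
      have h11 : (0 : ℝ) ≤ n * L ^ A := by positivity
      nlinarith
    exact h10.trans (mul_le_mul_of_nonneg_right h9 (by positivity)))
  push_cast [Nat.cast_sub (by omega : 1 ≤ n)] at h4
  rw [sub_zero, ← hLd] at h4
  obtain ⟨g1, g2⟩ := count_cg n k r hne (by omega)
  have g1' : (count n k r : ℝ) ≤ Pool.Agent.TH935.DG.cg k r n 0 (n - 1) := by exact_mod_cast g1
  have g2' : (Pool.Agent.TH935.DG.cg k r n 0 (n - 1) : ℝ) ≤ count n k r + 1 := by exact_mod_cast g2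
  unfold pred
  have hKe : classes k n = Pool.Agent.W93.PP.Cnt k n := Pool.Agent.TH345.GBM.cnt_eq k n hk
  rw [← hKe] at h4
  obtain ⟨K, hK⟩ : ∃ K : ℝ, K = classes k n := ⟨_, rfl⟩
  rw [← hK] at h4 ⊢
  have hK0 : 0 < K := by
    rw [hK, hKe]
    exact_mod_cast Pool.Agent.TH935.DG.cnt_pos' k r n hk hr hrn
  have hKL : K ≤ L ^ B := by
    rw [← hLd] at hkL
    refine le_trans ?_ hkL
    rw [hK, hKe]
    exact_mod_cast Pool.Agent.TH935.DF.cnt_le k n
  obtain ⟨ℓ, hℓ⟩ : ∃ ℓ, ℓ = Real.log (n : ℝ) := ⟨_, rfl⟩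
  rw [← hℓ] at c1 ⊢
  have hℓ0 : 0 < ℓ := by
    refine lt_of_lt_of_le ?_ c1.1
    have : 0 < 1 - ε' / 16 := by linarith
    positivity
  have hs : 1 ≤ sing n := Pool.Agent.W93.GB.one_le_sing _
  obtain ⟨Q, hQ⟩ : ∃ Q, Q = sing n * n / (K * ℓ ^ 2) := ⟨_, rfl⟩
  have hQ0 : 0 ≤ Q := by rw [hQ]; positivity
  have key := Pool.Agent.TH345.GBM.cmp ε' (Pool.Agent.TH935.DG.cg k r n 0 (n - 1)) (sing n * ((n : ℝ) - 1) / (K * L ^ 2))
    Q (((n : ℝ) - 1) / n) (ℓ / L) hε0 hε1 hQ0 h4 (by
      rw [hQ]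
      field_simp) (by
      rw [le_div_iff₀ hn0]
      have h12 : 16 ≤ ε' * n := by
        have h13 : L ≤ n := by
          refine le_trans ?_ hn4
          exact le_self_pow₀ hL1 (by norm_num)
        nlinarith
      linarith) (by
      rw [div_le_one hn0]
      linarith) (by
      rw [le_div_iff₀ hL0]
      exact c1.1) (by
      rw [div_le_iff₀ hL0]
      exact c1.2)
  rw [← hQ]
  -- the main term is large
  have hQ4 : 4 ≤ ε' * Q := by
    have h14 : ℓ ≤ 2 * L := by
      refine c1.2.trans ?_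
      nlinarith
    have h15 : ℓ ^ 2 ≤ 4 * L ^ 2 := by nlinarith
    have h16 : L ^ 2 / 4 ≤ Q := by
      rw [hQ, le_div_iff₀ (by positivity)]
      calc L ^ 2 / 4 * (K * ℓ ^ 2) ≤ L ^ 2 / 4 * (L ^ B * (4 * L ^ 2)) := by
            apply mul_le_mul_of_nonneg_left _ (by positivity)
            exact mul_le_mul hKL h15 (by positivity) (by positivity)
        _ = L ^ (B + 4) := by rw [pow_add]; ring
        _ ≤ n := hn3
        _ ≤ sing n * n := le_mul_of_one_le_left hn0.le hs
    have h17 : 256 ≤ ε' * L ^ 2 := by nlinarith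
    nlinarith
  rw [abs_le] at key
  constructor
  · rw [abs_le]
    constructor
    · nlinarith
    · nlinarith
  · have h18 : (0 : ℝ) < count n k r := by nlinarith
    exact_mod_cast h18

theorem first (h A B C U W : ℕ) (ε : ℝ) (hε : 0 < ε) :
    ∃ N₀ : ℕ, ∀ N : ℕ, N₀ ≤ N → ∀ (ι : Type) [Fintype ι] (v : ι → ℤ),
      (∀ i, |v i| ≤ W * N) →
      (energy h v : ℝ) * N ≤ Real.log N ^ C * (Fintype.card ι : ℝ) ^ (2 * h) →
      (exceptions ε A B N v : ℝ) ≤ Fintype.card ι / Real.log N ^ U := by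
  classical
  obtain ⟨N₀, h0⟩ := Pool.Agent.TH345.GBM.close h (A + 1) B A C W U (min ε 1 / 4) (by
    have := lt_min hε one_pos
    positivity)
  obtain ⟨N₁, h1⟩ := holds_of A B (W + 1) ε hε
  obtain ⟨N₂, h2⟩ := Pool.Agent.H373R2.T7.ev_L' 3
  obtain ⟨N₃, h3⟩ := Pool.Agent.H373R2.T7.ev_log' A 1
  refine ⟨N₀ + N₁ + N₂ + N₃ + 1, fun N hN ι _ v hv hE => ?_⟩
  have c2 := h2 N (by omega)
  have c3 := h3 N (by omega)
  rw [one_mul] at c3
  have hNr : (1 : ℝ) ≤ N := by exact_mod_cast (by omega : 1 ≤ N)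
  have hLN : Real.log N ^ A ≤ N := by
    refine c3.trans ?_
    rw [Real.sqrt_le_left (by linarith)]
    nlinarith
  unfold exceptions
  apply h0 N (by omega) ι v hv hE
  intro i hi
  rw [mem_filter] at hi
  obtain ⟨_, n, hne, hn1, hn2, hn3⟩ := hi
  refine ⟨n, ?_, hne, hn2, fun hG => hn3 (h1 N (by omega) n hne hn1 ?_ hG)⟩
  · have : (0 : ℝ) < n := by
      refine lt_of_lt_of_le ?_ hn1
      have : (0 : ℝ) < N := by linarith
      have : 0 < Real.log (N : ℝ) := by linarith
      positivity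
    exact_mod_cast this
  · have h5 := hv i
    have h6 : ((|(n : ℤ) - v i| : ℤ) : ℝ) ≤ N := hn2.trans hLN
    have h7 : |(n : ℤ) - v i| ≤ N := by exact_mod_cast h6
    rw [abs_le] at h5 h7
    have h8 : (n : ℤ) ≤ ((W + 1) * N : ℕ) := by
      push_cast
      linarith [h5.2, h7.2]
    exact_mod_cast h8

/-- Let `h`, `A`, `B`, `C`, `U`, `W` and `ε > 0` be fixed, and let `N` be large. Let `v i`, `i ∈ ι`, be an
arbitrary finite family of integers with `|v i| ≤ W N`.

* Suppose that the additive energy of order `h` of the family is at most `log ^ C N` times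
  `(#ι) ^ (2 h) / N` (up to the power of the logarithm this is the least possible energy of a family with
  members in `[-N, N]`, and the family may have as few as `N ^ (1 / h)` members). Then for all members `v i`
  of the family, with at most `#ι / log ^ U N` exceptions, all the even numbers `n ≥ N / log ^ A N` with
  `|n - v i| ≤ log ^ A N` have the following property: for every modulus `k ≤ log ^ B N` and every class `r`
  with `(r, k) = (n - r, k) = 1`, the number of the representations of `n` as a sum of two distinct odd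
  primes, the first of them `≡ r (mod k)`, is positive and as predicted up to a relative error of at most
  `ε`. (For `v i = 2 p i`, `p i` prime, and `n = v i` these are the three-term progressions of primes with
  the given middle term `p i`.)
* In particular this holds if no integer has more than `log ^ C N` representations as a sum of `h` members
  of the family, and `(#ι) ^ h ≥ N / log ^ C N`. -/
theorem result (h A B C U W : ℕ) (ε : ℝ) (hε : 0 < ε) :
    (∃ N₀ : ℕ, ∀ N : ℕ, N₀ ≤ N → ∀ (ι : Type) [Fintype ι] (v : ι → ℤ),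
      (∀ i, |v i| ≤ W * N) →
      (energy h v : ℝ) * N ≤ Real.log N ^ C * (Fintype.card ι : ℝ) ^ (2 * h) →
      (exceptions ε A B N v : ℝ) ≤ Fintype.card ι / Real.log N ^ U) ∧
    (∃ N₀ : ℕ, ∀ N : ℕ, N₀ ≤ N → ∀ (ι : Type) [Fintype ι] (v : ι → ℤ),
      (∀ i, |v i| ≤ W * N) →
      (∀ t, (reps h v t : ℝ) ≤ Real.log N ^ C) →
      (N : ℝ) ≤ Real.log N ^ C * (Fintype.card ι : ℝ) ^ h →
      (exceptions ε A B N v : ℝ) ≤ Fintype.card ι / Real.log N ^ U) := by
  refine ⟨first h A B C U W ε hε, ?_⟩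
  obtain ⟨N₀, h0⟩ := first h A B (2 * C) U W ε hε
  obtain ⟨N₁, h1⟩ := Pool.Agent.H373R2.T7.ev_L' 1
  refine ⟨N₀ + N₁, fun N hN ι _ v hv hJ hx => ?_⟩
  apply h0 N (by omega) ι v hv
  have hL := h1 N (by omega)
  have hL0 : 0 ≤ Real.log N := by linarith
  have h2 : (energy h v : ℝ) ≤ (Fintype.card ι : ℝ) ^ h * Real.log N ^ C :=
    Pool.Agent.TH935.GF.En_le h v _ hJ
  calc (energy h v : ℝ) * N ≤ ((Fintype.card ι : ℝ) ^ h * Real.log N ^ C) * (Real.log N ^ C * (Fintype.card ι : ℝ) ^ h) :=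
        mul_le_mul h2 hx (Nat.cast_nonneg _) (by positivity)
    _ = Real.log N ^ (2 * C) * (Fintype.card ι : ℝ) ^ (2 * h) := by ring

end Pool.Agent.Results.MP_61161c_nt.DistinctThinFamilies
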