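import Pool.Agent.TH464.GB.Main

set_option autoImplicit false

/-!
# Binary Goldbach with an almost prime summand: the right order of magnitude in all windows

For an even `N` call a prime `p < N` a Goldbach prime if `N - p` has at most `r` prime factors, all
larger than `N ^ (1 / r)`. Put `L (N) = log ^ 2 N / 𝔖 (N)`, where
`𝔖 (N) = ∏_{p ∣ N, p > 2} (p - 1) / (p - 2)` has the order `N / φ (N)`. Uniformly for all large even
`N` and all `N ^ θ ≤ X ≤ N / 4`, for at least `κ X` of the integers `n` in `(X, 2 X]` every window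
around `n` of length `h` between `K L (N)` and `X` contains between `c₁ h / L (N)` and `c₂ h / L (N)`
Goldbach primes, and at all but at most `B (δ)` dyadic scales they have constant density around `n`
up to `δ`.
-/

namespace Pool.Agent.Results.MP_61161c_nt.WindowsUniformInN

open Finset Filter

/-- `p < N` is prime and `N - p` has at most `r` prime factors (with multiplicity), all of them
larger than `N ^ (1 / r)`. -/
def GoldbachPrime (r N p : ℕ) : Prop :=
  p.Prime ∧ p < N ∧ (N - p).primeFactorsList.length ≤ r ∧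
    ∀ q : ℕ, q.Prime → q ∣ N - p → (N : ℝ) ^ (1 / (r : ℝ)) < (q : ℝ)

/-- The length scale `log ^ 2 N / ∏_{p ∣ N, p > 2} (p - 1) / (p - 2)`. -/
noncomputable def L (N : ℕ) : ℝ :=
  Real.log N ^ 2 / ∏ p ∈ N.primeFactors.filter (fun p => p ≠ 2), ((p : ℝ) - 1) / ((p : ℝ) - 2)

open Classical in
/-- The number of the Goldbach primes in `(a, b]`. -/
noncomputable def count (r N a b : ℕ) : ℕ :=
  ((Finset.Ioc a b).filter (fun p => GoldbachPrime r N p)).card

/-- `n` is regular: the windows around `n` of all lengths between `K L (N)` and `X` have the right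
order. -/
def Regular (r : ℕ) (c₁ c₂ K : ℝ) (N X n : ℕ) : Prop :=
  ∀ a b : ℕ, a ≤ n → n ≤ b → K * L N ≤ (b : ℝ) - a → (b : ℝ) - a ≤ X →
    c₁ * ((b : ℝ) - a) / L N ≤ count r N a b ∧ (count r N a b : ℝ) ≤ c₂ * ((b : ℝ) - a) / L N

/-- Constant density, up to `δ`, on `[n - D, n + D]`. -/
def ConstantDensity (r : ℕ) (c₁ c₂ δ : ℝ) (N n D : ℕ) : Prop :=
  ∃ lam : ℝ, c₁ ≤ lam ∧ lam ≤ c₂ ∧ ∀ u v : ℕ, n ≤ u + D → u ≤ v → v ≤ n + D →
    |(count r N u v : ℝ) - lam * ((v : ℝ) - u) / L N| ≤ δ * D / L N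

open Classical in
/-- The number of the scales `L (N) ≤ 2 ^ j ≤ X` without this property. -/
noncomputable def badScales (r : ℕ) (c₁ c₂ δ : ℝ) (N X n : ℕ) : ℕ :=
  ((range (Nat.log 2 X + 1)).filter (fun j => L N ≤ (2 : ℝ) ^ j ∧
    ¬ ConstantDensity r c₁ c₂ δ N n (2 ^ j))).card

open Classical in
/-- **Regular windows, uniformly in the even number `N`.** -/
theorem result (θ : ℝ) (hθ : 0 < θ) (hθ1 : θ ≤ 1) :
    ∃ (r : ℕ) (c₁ c₂ K κ : ℝ), 0 < c₁ ∧ 0 < c₂ ∧ 0 < K ∧ 0 < κ ∧ ∀ δ : ℝ, 0 < δ → ∃ B : ℕ,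
      ∀ᶠ N : ℕ in atTop, 2 ∣ N → ∀ X : ℕ, (N : ℝ) ^ θ ≤ X → 4 * X ≤ N →
        κ * X ≤ (((Finset.Ioc X (2 * X)).filter (fun n =>
          Regular r c₁ c₂ K N X n ∧ badScales r c₁ c₂ δ N X n ≤ B)).card : ℝ) :=
  Pool.Agent.TH464.GB.main_pos θ hθ hθ1

end Pool.Agent.Results.MP_61161c_nt.WindowsUniformInN
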